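import Mathlib

set_option autoImplicit false

namespace Pool.Agent.Results.MP_484ff1_al.UncountableChain

/-! ## Word metrics, Cayley graphs, hyperbolicity -/

section General

variable {G : Type} [Group G]

/-- Word length `|g|_X`: the least length of a product of elements of `X` and their inverses
that equals `g`. -/
noncomputable def wlen (X : Set G) (g : G) : ℕ :=
  sInf {n : ℕ | ∃ l : List G, (∀ y ∈ l, y ∈ X ∨ y⁻¹ ∈ X) ∧ l.prod = g ∧ l.length = n}

/-- The path metric of the Cayley graph `Γ(G,X)` on its vertex set `G`. -/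
noncomputable def wdist (X : Set G) (g h : G) : ℕ := wlen X (g⁻¹ * h)

/-- The Gromov product `(x|y)_w` in `Γ(G,X)`. -/
noncomputable def gprod (X : Set G) (x y w : G) : ℝ :=
  ((wdist X x w : ℝ) + (wdist X y w : ℝ) - (wdist X x y : ℝ)) / 2

/-- Gromov hyperbolicity of the Cayley graph `Γ(G,X)` (four-point condition on vertices). -/
def IsHyp (X : Set G) : Prop :=
  ∃ δ : ℝ, ∀ x y z w : G, min (gprod X x y w) (gprod X y z w) - δ ≤ gprod X x z w

variable (G) in
/-- Generating sets of `G`. -/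
def GenSet : Type := {X : Set G // Subgroup.closure X = ⊤}

/-- A sequence of vertices of `Γ(G,X)` converges to infinity. -/
def ConvInf (X : Set G) (s : ℕ → G) : Prop :=
  ∀ R : ℝ, ∃ N : ℕ, ∀ m n : ℕ, N ≤ m → N ≤ n → R ≤ gprod X (s m) (s n) 1

/-- Two sequences converging to infinity are equivalent. -/
def SeqEquiv (X : Set G) (s t : {s : ℕ → G // ConvInf X s}) : Prop :=
  ∀ R : ℝ, ∃ N : ℕ, ∀ n : ℕ, N ≤ n → R ≤ gprod X (s.1 n) (t.1 n) 1

/-- The Gromov boundary of `Γ(G,X)`. -/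
def Bdry (X : Set G) : Type := Quot (SeqEquiv X)

theorem exists_word (X : GenSet G) (g : G) :
    ∃ l : List G, (∀ y ∈ l, y ∈ X.1 ∨ y⁻¹ ∈ X.1) ∧ l.prod = g := by
  have hg : g ∈ Subgroup.closure X.1 := by rw [X.2]; trivial
  have h2 : g ∈ (Subgroup.closure X.1).toSubmonoid := hg
  rw [Subgroup.closure_toSubmonoid] at h2
  obtain ⟨l, hl, hp⟩ := Submonoid.exists_list_of_mem_closure h2
  refine ⟨l, ?_, hp⟩
  intro y hy
  rcases hl y hy with h | h
  · exact Or.inl h
  · exact Or.inr h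

theorem wlen_spec (X : GenSet G) (g : G) :
    ∃ l : List G, (∀ y ∈ l, y ∈ X.1 ∨ y⁻¹ ∈ X.1) ∧ l.prod = g ∧ l.length = wlen X.1 g := by
  have hne : {n : ℕ | ∃ l : List G, (∀ y ∈ l, y ∈ X.1 ∨ y⁻¹ ∈ X.1) ∧ l.prod = g ∧
      l.length = n}.Nonempty := by
    obtain ⟨l, hl, hp⟩ := exists_word X g
    exact ⟨l.length, l, hl, hp, rfl⟩
  exact Nat.sInf_mem hne

theorem wlen_le (X : Set G) (l : List G) (hl : ∀ y ∈ l, y ∈ X ∨ y⁻¹ ∈ X) :
    wlen X l.prod ≤ l.length :=
  Nat.sInf_le ⟨l, hl, rfl, rfl⟩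

theorem wlen_mul_le (X : GenSet G) (g h : G) : wlen X.1 (g * h) ≤ wlen X.1 g + wlen X.1 h := by
  obtain ⟨l, hl, hp, hn⟩ := wlen_spec X g
  obtain ⟨l', hl', hp', hn'⟩ := wlen_spec X h
  rw [← hn, ← hn', ← hp, ← hp', ← List.prod_append, ← List.length_append]
  apply wlen_le
  intro y hy
  rcases List.mem_append.mp hy with h1 | h1
  · exact hl y h1
  · exact hl' y h1

theorem wlen_inv_le (X : GenSet G) (g : G) : wlen X.1 g⁻¹ ≤ wlen X.1 g := by
  obtain ⟨l, hl, hp, hn⟩ := wlen_spec X g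
  rw [← hn, ← hp, List.prod_inv_reverse]
  refine (wlen_le X.1 _ ?_).trans (by simp)
  intro y hy
  simp only [List.mem_reverse, List.mem_map] at hy
  obtain ⟨z, hz, rfl⟩ := hy
  rcases hl z hz with h1 | h1
  · right; rwa [inv_inv]
  · left; exact h1

theorem wlen_inv (X : GenSet G) (g : G) : wlen X.1 g⁻¹ = wlen X.1 g := by
  apply le_antisymm (wlen_inv_le X g)
  have := wlen_inv_le X g⁻¹
  rwa [inv_inv] at this

theorem wdist_triangle (X : GenSet G) (x y z : G) :
    wdist X.1 x z ≤ wdist X.1 x y + wdist X.1 y z := by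
  unfold wdist
  have : x⁻¹ * z = (x⁻¹ * y) * (y⁻¹ * z) := by group
  rw [this]
  exact wlen_mul_le X _ _

theorem wdist_comm (X : GenSet G) (x y : G) : wdist X.1 x y = wdist X.1 y x := by
  unfold wdist
  rw [← wlen_inv X (x⁻¹ * y)]
  congr 1
  group

theorem wdist_left (X : Set G) (g x y : G) : wdist X (g * x) (g * y) = wdist X x y := by
  unfold wdist
  congr 1
  group

theorem gprod_translate (X : GenSet G) (g x y : G) :
    gprod X.1 x y 1 - (wdist X.1 1 g⁻¹ : ℝ) ≤ gprod X.1 (g * x) (g * y) 1 := by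
  unfold gprod
  have h1 : wdist X.1 (g * x) 1 = wdist X.1 x g⁻¹ := by
    rw [← wdist_left X.1 g⁻¹ (g * x) 1]
    congr 1 <;> group
  have h2 : wdist X.1 (g * y) 1 = wdist X.1 y g⁻¹ := by
    rw [← wdist_left X.1 g⁻¹ (g * y) 1]
    congr 1 <;> group
  rw [h1, h2, wdist_left]
  have h3 := wdist_triangle X x g⁻¹ 1
  have h4 := wdist_triangle X y g⁻¹ 1
  rw [wdist_comm X g⁻¹ 1] at h3 h4
  have h3' : (wdist X.1 x 1 : ℝ) ≤ wdist X.1 x g⁻¹ + wdist X.1 1 g⁻¹ := by exact_mod_cast h3
  have h4' : (wdist X.1 y 1 : ℝ) ≤ wdist X.1 y g⁻¹ + wdist X.1 1 g⁻¹ := by exact_mod_cast h4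
  linarith

/-- Left translation of a sequence converging to infinity. -/
def translate (X : GenSet G) (g : G) (s : {s : ℕ → G // ConvInf X.1 s}) :
    {s : ℕ → G // ConvInf X.1 s} :=
  ⟨fun n => g * s.1 n, by
    intro R
    obtain ⟨N, hN⟩ := s.2 (R + (wdist X.1 1 g⁻¹ : ℝ))
    refine ⟨N, fun m n hm hn => ?_⟩
    have h1 := hN m n hm hn
    have h2 := gprod_translate X g (s.1 m) (s.1 n)
    linarith⟩

/-- The action of `g` on the Gromov boundary of `Γ(G,X)` induced by left multiplication. -/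
def bdryAct (X : GenSet G) (g : G) : Bdry X.1 → Bdry X.1 :=
  Quot.map (translate X g) (by
    intro s t hst R
    obtain ⟨N, hN⟩ := hst (R + (wdist X.1 1 g⁻¹ : ℝ))
    refine ⟨N, fun n hn => ?_⟩
    have h1 := hN n hn
    have h2 := gprod_translate X g (s.1 n) (t.1 n)
    change R ≤ gprod X.1 (g * s.1 n) (g * t.1 n) 1
    linarith)

/-- The limit set of `G` in the boundary of `Γ(G,X)`: all boundary points represented by
a sequence in the orbit of the vertex `1`. -/
def limitSet (X : GenSet G) : Set (Bdry X.1) :=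
  {ξ | ∃ (g : ℕ → G) (h : ConvInf X.1 (fun n => g n * 1)), ξ = Quot.mk _ ⟨fun n => g n * 1, h⟩}

/-- The action of `G` on `Γ(G,X)` is quasi-parabolic: it fixes a boundary point and has an
infinite limit set. -/
def IsQuasiParabolic (X : GenSet G) : Prop :=
  (∃ ξ : Bdry X.1, ∀ g : G, bdryAct X g ξ = ξ) ∧ (limitSet X).Infinite

variable (G) in
/-- Generating sets with hyperbolic Cayley graph. -/
def HypGenSet : Type := {X : GenSet G // IsHyp X.1}

/-- `Y ≤ X` iff the `Y`-length is bounded on `X`. -/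
instance : Preorder (HypGenSet G) where
  le Y X := ∃ C : ℕ, ∀ x ∈ X.1.1, wlen Y.1.1 x ≤ C
  le_refl X := by
    refine ⟨1, fun x hx => ?_⟩
    have := wlen_le X.1.1 [x] (by simpa using Or.inl hx)
    simpa using this
  le_trans Z Y X := by
    rintro ⟨C, hC⟩ ⟨D, hD⟩
    refine ⟨D * C, fun x hx => ?_⟩
    obtain ⟨l, hl, hp, hn⟩ := wlen_spec Y.1 x
    have key : ∀ l : List G, (∀ y ∈ l, y ∈ Y.1.1 ∨ y⁻¹ ∈ Y.1.1) →
        wlen Z.1.1 l.prod ≤ l.length * C := by
      intro l
      induction l with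
      | nil =>
        intro _
        have := wlen_le Z.1.1 [] (by simp)
        simpa using this
      | cons a l ih =>
        intro h
        have h1 := ih (fun y hy => h y (List.mem_cons_of_mem _ hy))
        have h2 : wlen Z.1.1 a ≤ C := by
          rcases h a List.mem_cons_self with h3 | h3
          · exact hC a h3
          · rw [← wlen_inv Z.1 a]
            exact hC _ h3
        rw [List.prod_cons, List.length_cons, Nat.succ_mul]
        have h3 := wlen_mul_le Z.1 a l.prod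
        omega
    have h1 := key l hl
    rw [hp, hn] at h1
    exact h1.trans (Nat.mul_le_mul_right _ (hD x hx))

variable (G) in
/-- The poset `H(G)` of hyperbolic structures on `G`. -/
abbrev HypStr : Type := Antisymmetrization (HypGenSet G) (· ≤ ·)

/-- The class `[X]`. -/
def cls (X : HypGenSet G) : HypStr G := toAntisymmetrization (· ≤ ·) X

variable (G) in
/-- The subset `H_qp(G)` of quasi-parabolic hyperbolic structures. -/
def QPStr : Set (HypStr G) := {c | ∃ X : HypGenSet G, cls X = c ∧ IsQuasiParabolic X.1}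

end General

/-! ## The group `ℤ wr ℤ` -/

/-- The restricted wreath product `ℤ wr ℤ`: pairs of a finitely supported function
`ℤ → ℤ` and an integer. -/
@[ext] structure ZwrZ where
  lamp : ℤ →₀ ℤ
  pos : ℤ

namespace ZwrZ

/-- shift of a lamp configuration: `(shift n f) i = f (i - n)`. -/
noncomputable def shift (n : ℤ) (f : ℤ →₀ ℤ) : ℤ →₀ ℤ :=
  Finsupp.equivMapDomain (Equiv.addRight n) f

theorem shift_apply (n : ℤ) (f : ℤ →₀ ℤ) (i : ℤ) : shift n f i = f (i - n) := by
  unfold shift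
  rw [Finsupp.equivMapDomain_apply]
  rfl

noncomputable instance : Group ZwrZ where
  mul a b := ⟨a.lamp + shift a.pos b.lamp, a.pos + b.pos⟩
  one := ⟨0, 0⟩
  inv a := ⟨-shift (-a.pos) a.lamp, -a.pos⟩
  mul_assoc a b c := by
    apply ZwrZ.ext
    · ext i
      change (a.lamp + shift a.pos b.lamp + shift (a.pos + b.pos) c.lamp) i
        = (a.lamp + shift a.pos (b.lamp + shift b.pos c.lamp)) i
      simp only [Finsupp.add_apply, shift_apply, add_assoc, sub_sub]
    · exact add_assoc _ _ _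
  one_mul a := by
    apply ZwrZ.ext
    · ext i
      change ((0 : ℤ →₀ ℤ) + shift 0 a.lamp) i = a.lamp i
      simp [shift_apply]
    · exact zero_add _
  mul_one a := by
    apply ZwrZ.ext
    · ext i
      change (a.lamp + shift a.pos 0) i = a.lamp i
      simp [shift_apply]
    · exact add_zero _
  inv_mul_cancel a := by
    apply ZwrZ.ext
    · ext i
      change (-shift (-a.pos) a.lamp + shift (-a.pos) a.lamp) i = (0 : ℤ →₀ ℤ) i
      simp
    · exact neg_add_cancel _

@[simp] theorem mul_lamp (a b : ZwrZ) : (a * b).lamp = a.lamp + shift a.pos b.lamp := rfl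
@[simp] theorem mul_pos (a b : ZwrZ) : (a * b).pos = a.pos + b.pos := rfl
@[simp] theorem one_lamp : (1 : ZwrZ).lamp = 0 := rfl
@[simp] theorem one_pos : (1 : ZwrZ).pos = 0 := rfl
@[simp] theorem inv_lamp (a : ZwrZ) : (a⁻¹).lamp = -shift (-a.pos) a.lamp := rfl
@[simp] theorem inv_pos (a : ZwrZ) : (a⁻¹).pos = -a.pos := rfl

/-- the stable letter -/
def t : ZwrZ := ⟨0, 1⟩

theorem t_zpow (n : ℤ) : (t ^ n : ZwrZ) = ⟨0, n⟩ := by
  have hnat : ∀ n : ℕ, (t ^ n : ZwrZ) = ⟨0, n⟩ := by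
    intro n
    induction n with
    | zero => rfl
    | succ n ih =>
      rw [pow_succ, ih]
      apply ZwrZ.ext
      · ext i; simp [t, shift_apply]
      · simp [t]
  rcases Int.eq_nat_or_neg n with ⟨k, rfl | rfl⟩
  · rw [zpow_natCast, hnat]
  · rw [zpow_neg, zpow_natCast, hnat]
    apply ZwrZ.ext
    · ext i; simp [shift_apply]
    · simp


/-! ## The confining subgroups -/

/-- A weight function: nonincreasing, zero on nonnegative integers, unbounded. -/
structure Wt where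
  e : ℤ → ℕ
  anti : ∀ i j : ℤ, i ≤ j → e j ≤ e i
  zero : ∀ i : ℤ, 0 ≤ i → e i = 0
  unbdd : ∀ C : ℕ, ∃ i : ℤ, C ≤ e i

/-- The subgroup of lamp configurations `f` with `2 ^ e i ∣ f i` for all `i`. -/
def Qset (e : ℤ → ℕ) : Set ZwrZ := {g | g.pos = 0 ∧ ∀ i : ℤ, (2 : ℤ) ^ e i ∣ g.lamp i}

def Xset (e : ℤ → ℕ) : Set ZwrZ := Qset e ∪ {t}

def P (e : ℤ → ℕ) (F : ℤ →₀ ℤ) (k : ℤ) : Prop := ∀ i : ℤ, (2 : ℤ) ^ e (i + k) ∣ F i

theorem P_mono (w : Wt) {F : ℤ →₀ ℤ} {k l : ℤ} (h : k ≤ l) (hP : P w.e F k) : P w.e F l :=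
  fun i => (pow_dvd_pow 2 (w.anti _ _ (by omega))).trans (hP i)

theorem P_exists (w : Wt) (F : ℤ →₀ ℤ) : ∃ k : ℤ, 0 ≤ k ∧ P w.e F k := by
  refine ⟨∑ i ∈ F.support, |i|, Finset.sum_nonneg (fun i _ => abs_nonneg i), ?_⟩
  intro i
  by_cases hi : i ∈ F.support
  · have h1 : |i| ≤ ∑ j ∈ F.support, |j| :=
      Finset.single_le_sum (f := fun j => |j|) (fun j _ => abs_nonneg j) hi
    have h2 : w.e (i + ∑ j ∈ F.support, |j|) = 0 := by
      apply w.zero
      have := neg_abs_le i
      linarith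
    rw [h2]
    simp
  · rw [Finsupp.notMem_support_iff.mp hi]
    exact dvd_zero _

theorem P_add (e : ℤ → ℕ) {F F' : ℤ →₀ ℤ} {k : ℤ} (h : P e F k) (h' : P e F' k) :
    P e (F + F') k := by
  intro i
  rw [Finsupp.add_apply]
  exact dvd_add (h i) (h' i)

theorem P_neg (e : ℤ → ℕ) {F : ℤ →₀ ℤ} {k : ℤ} (h : P e F k) : P e (-F) k := by
  intro i
  rw [Finsupp.neg_apply]
  exact (dvd_neg).mpr (h i)

theorem P_zero (e : ℤ → ℕ) (k : ℤ) : P e 0 k := fun i => by simp

theorem P_shift (e : ℤ → ℕ) (F : ℤ →₀ ℤ) (n k : ℤ) : P e (shift n F) k ↔ P e F (k + n) := by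
  constructor
  · intro h i
    have := h (i + n)
    rw [shift_apply] at this
    have h1 : i + n - n = i := by ring
    have h2 : i + n + k = i + (k + n) := by ring
    rwa [h1, h2] at this
  · intro h i
    rw [shift_apply]
    have := h (i - n)
    have h2 : i - n + (k + n) = i + k := by ring
    rwa [h2] at this

/-- `E e m g h`: the vertices `g` and `h` have the same ancestor at height `m`. -/
def E (e : ℤ → ℕ) (m : ℤ) (g h : ZwrZ) : Prop :=
  m ≤ g.pos ∧ m ≤ h.pos ∧ P e (h.lamp - g.lamp) (-m)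

theorem E_symm {e : ℤ → ℕ} {m : ℤ} {g h : ZwrZ} (H : E e m g h) : E e m h g := by
  refine ⟨H.2.1, H.1, ?_⟩
  have := P_neg e H.2.2
  rwa [neg_sub] at this

theorem E_trans {e : ℤ → ℕ} {m : ℤ} {g h k : ZwrZ} (H : E e m g h) (H' : E e m h k) :
    E e m g k := by
  refine ⟨H.1, H'.2.1, ?_⟩
  have := P_add e H'.2.2 H.2.2
  rwa [sub_add_sub_cancel] at this

theorem E_mono (w : Wt) {m l : ℤ} (hml : l ≤ m) {g h : ZwrZ} (H : E w.e m g h) : E w.e l g h :=
  ⟨hml.trans H.1, hml.trans H.2.1, P_mono w (by omega) H.2.2⟩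

theorem E_left (e : ℤ → ℕ) (m : ℤ) (a g h : ZwrZ) :
    E e (m + a.pos) (a * g) (a * h) ↔ E e m g h := by
  unfold E
  simp only [mul_pos, mul_lamp]
  have h1 : a.lamp + shift a.pos h.lamp - (a.lamp + shift a.pos g.lamp)
      = shift a.pos (h.lamp - g.lamp) := by
    ext i
    simp only [Finsupp.sub_apply, Finsupp.add_apply, shift_apply]
    ring
  rw [h1, P_shift]
  have h2 : -(m + a.pos) + a.pos = -m := by ring
  rw [h2]
  constructor
  · rintro ⟨h3, h4, h5⟩
    exact ⟨by omega, by omega, h5⟩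
  · rintro ⟨h3, h4, h5⟩
    exact ⟨by omega, by omega, h5⟩

theorem E_exists (w : Wt) (g h : ZwrZ) : ∃ m, E w.e m g h := by
  obtain ⟨k, hk, hP⟩ := P_exists w (h.lamp - g.lamp)
  refine ⟨min (-k) (min g.pos h.pos), ?_, ?_, P_mono w ?_ hP⟩
  · exact (min_le_right _ _).trans (min_le_left _ _)
  · exact (min_le_right _ _).trans (min_le_right _ _)
  · have := min_le_left (-k) (min g.pos h.pos)
    omega

/-- the height of the last common ancestor -/
noncomputable def M (e : ℤ → ℕ) (g h : ZwrZ) : ℤ := sSup {m | E e m g h}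

theorem E_bdd (e : ℤ → ℕ) (g h : ZwrZ) : BddAbove {m | E e m g h} :=
  ⟨g.pos, fun _ hm => hm.1⟩

theorem M_spec (w : Wt) (g h : ZwrZ) : E w.e (M w.e g h) g h :=
  Int.csSup_mem (E_exists w g h) (E_bdd w.e g h)

theorem le_M {e : ℤ → ℕ} {g h : ZwrZ} {m : ℤ} (H : E e m g h) : m ≤ M e g h :=
  le_csSup (E_bdd e g h) H

theorem M_comm (w : Wt) (g h : ZwrZ) : M w.e g h = M w.e h g :=
  le_antisymm (le_M (E_symm (M_spec w g h))) (le_M (E_symm (M_spec w h g)))

theorem M_ultra (w : Wt) (g h k : ZwrZ) : min (M w.e g h) (M w.e h k) ≤ M w.e g k :=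
  le_M (E_trans (E_mono w (min_le_left _ _) (M_spec w g h))
    (E_mono w (min_le_right _ _) (M_spec w h k)))

theorem M_le_left (w : Wt) (g h : ZwrZ) : M w.e g h ≤ g.pos := (M_spec w g h).1

theorem M_le_right (w : Wt) (g h : ZwrZ) : M w.e g h ≤ h.pos := (M_spec w g h).2.1

theorem M_left (w : Wt) (a g h : ZwrZ) : M w.e (a * g) (a * h) = M w.e g h + a.pos := by
  apply le_antisymm
  · have h1 := M_spec w (a * g) (a * h)
    have h2 : E w.e (M w.e (a * g) (a * h) - a.pos) g h := by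
      rw [← E_left w.e _ a g h]
      have : M w.e (a * g) (a * h) - a.pos + a.pos = M w.e (a * g) (a * h) := by ring
      rwa [this]
    have := le_M h2
    omega
  · exact le_M ((E_left w.e _ a g h).mpr (M_spec w g h))

/-- the tree distance -/
noncomputable def D (e : ℤ → ℕ) (g h : ZwrZ) : ℤ := g.pos + h.pos - 2 * M e g h

theorem D_left (w : Wt) (a g h : ZwrZ) : D w.e (a * g) (a * h) = D w.e g h := by
  unfold D
  rw [M_left, mul_pos, mul_pos]
  ring

theorem D_triangle (w : Wt) (x y z : ZwrZ) : D w.e x z ≤ D w.e x y + D w.e y z := by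
  unfold D
  have h1 := M_ultra w x y z
  have h2 := M_le_right w x y
  have h3 := M_le_left w y z
  omega

theorem D_self (w : Wt) (x : ZwrZ) : D w.e x x ≤ 0 := by
  unfold D
  have : x.pos ≤ M w.e x x := le_M ⟨le_rfl, le_rfl, by rw [sub_self]; exact P_zero _ _⟩
  omega

theorem D_comm (w : Wt) (x y : ZwrZ) : D w.e x y = D w.e y x := by
  unfold D
  rw [M_comm w x y]
  ring

theorem D_gen (w : Wt) (x : ZwrZ) (hx : x ∈ Xset w.e) : D w.e 1 x ≤ 1 := by
  rcases hx with hx | hx
  · have h1 : (0 : ℤ) ≤ M w.e 1 x := by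
      apply le_M
      refine ⟨le_rfl, by rw [hx.1], ?_⟩
      intro i
      have h2 : (x.lamp - (1 : ZwrZ).lamp) i = x.lamp i := by simp
      rw [h2]
      simpa using hx.2 i
    unfold D
    rw [hx.1, one_pos]
    omega
  · rw [Set.mem_singleton_iff] at hx
    subst hx
    have h1 : (0 : ℤ) ≤ M w.e 1 t := by
      apply le_M
      refine ⟨le_rfl, by simp [t], ?_⟩
      have h2 : (t.lamp - (1 : ZwrZ).lamp) = 0 := by simp [t]
      rw [h2]
      exact P_zero _ _
    unfold D
    have h3 : t.pos = 1 := rfl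
    rw [h3, one_pos]
    omega

theorem D_gen_inv (w : Wt) (x : ZwrZ) (hx : x ∈ Xset w.e ∨ x⁻¹ ∈ Xset w.e) : D w.e 1 x ≤ 1 := by
  rcases hx with hx | hx
  · exact D_gen w x hx
  · have h1 := D_gen w _ hx
    have h2 := D_left w x 1 x⁻¹
    rw [mul_one, mul_inv_cancel] at h2
    rw [D_comm w 1 x, h2]
    exact h1

theorem D_prod (w : Wt) (l : List ZwrZ) (hl : ∀ y ∈ l, y ∈ Xset w.e ∨ y⁻¹ ∈ Xset w.e) :
    D w.e 1 l.prod ≤ l.length := by
  induction l with
  | nil =>
    simp only [List.prod_nil, List.length_nil]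
    exact D_self w 1
  | cons a l ih =>
    have h1 := ih (fun y hy => hl y (List.mem_cons_of_mem _ hy))
    have h2 := D_gen_inv w a (hl a List.mem_cons_self)
    have h3 := D_triangle w 1 a (a * l.prod)
    have h4 := D_left w a 1 l.prod
    rw [mul_one] at h4
    rw [List.prod_cons, List.length_cons]
    push_cast
    omega

/-- Every element is a short word. -/
theorem word_exists (w : Wt) (g : ZwrZ) :
    ∃ l : List ZwrZ, (∀ y ∈ l, y ∈ Xset w.e ∨ y⁻¹ ∈ Xset w.e) ∧ l.prod = g ∧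
      (l.length : ℤ) ≤ D w.e 1 g + 1 := by
  obtain ⟨hm1, hm2, hP⟩ := M_spec w 1 g
  set m := M w.e 1 g with hm
  rw [one_pos] at hm1
  obtain ⟨k, hk⟩ : ∃ k : ℕ, (k : ℤ) = -m := ⟨(-m).toNat, by omega⟩
  obtain ⟨j, hj⟩ : ∃ j : ℕ, (j : ℤ) = g.pos - m := ⟨(g.pos - m).toNat, by omega⟩
  refine ⟨List.replicate k t⁻¹ ++ ((⟨shift k g.lamp, 0⟩ : ZwrZ) :: List.replicate j t), ?_, ?_, ?_⟩
  · intro y hy
    rcases List.mem_append.mp hy with h | h
    · right
      rw [List.eq_of_mem_replicate h, inv_inv]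
      exact Or.inr rfl
    · rcases List.mem_cons.mp h with h | h
      · left
        rw [h]
        left
        refine ⟨rfl, ?_⟩
        intro i
        change (2 : ℤ) ^ w.e i ∣ (shift (k : ℤ) g.lamp) i
        have h1 : P w.e (shift (k : ℤ) g.lamp) 0 := by
          rw [P_shift]
          have h2 : g.lamp - (1 : ZwrZ).lamp = g.lamp := by simp
          rw [h2] at hP
          rw [zero_add, hk]
          exact hP
        have := h1 i
        rwa [add_zero] at this
      · left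
        rw [List.eq_of_mem_replicate h]
        exact Or.inr rfl
  · rw [List.prod_append, List.prod_cons, List.prod_replicate, List.prod_replicate, inv_pow,
      ← zpow_natCast, ← zpow_natCast, ← zpow_neg, t_zpow, t_zpow]
    apply ZwrZ.ext
    · ext i
      simp only [mul_lamp, Finsupp.add_apply, shift_apply, Finsupp.coe_zero, Pi.zero_apply,
        add_zero, zero_add]
      congr 1
      ring
    · simp only [mul_pos]
      omega
  · simp only [List.length_append, List.length_replicate, List.length_cons]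
    unfold D
    rw [one_pos, ← hm]
    push_cast
    omega

theorem closure_Xset (w : Wt) : Subgroup.closure (Xset w.e) = ⊤ := by
  rw [eq_top_iff]
  intro g _
  obtain ⟨l, hl, hp, -⟩ := word_exists w g
  rw [← hp]
  apply Subgroup.list_prod_mem
  intro y hy
  rcases hl y hy with h | h
  · exact Subgroup.subset_closure h
  · rw [← inv_inv y]
    exact Subgroup.inv_mem _ (Subgroup.subset_closure h)

/-- The generating set attached to a weight function. -/
def XG (w : Wt) : GenSet ZwrZ := ⟨Xset w.e, closure_Xset w⟩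

theorem wlen_lower (w : Wt) (g : ZwrZ) : D w.e 1 g ≤ wlen (XG w).1 g := by
  obtain ⟨l, hl, hp, hn⟩ := wlen_spec (XG w) g
  rw [← hn]
  nth_rewrite 1 [← hp]
  exact D_prod w l hl

theorem wlen_upper (w : Wt) (g : ZwrZ) : (wlen (XG w).1 g : ℤ) ≤ D w.e 1 g + 1 := by
  obtain ⟨l, hl, hp, hn⟩ := word_exists w g
  refine le_trans ?_ hn
  have := wlen_le (XG w).1 l hl
  rw [hp] at this
  exact_mod_cast this

theorem wdist_lower (w : Wt) (g h : ZwrZ) : D w.e g h ≤ wdist (XG w).1 g h := by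
  have h1 := wlen_lower w (g⁻¹ * h)
  have h2 := D_left w g⁻¹ g h
  rw [inv_mul_cancel] at h2
  rw [h2] at h1
  exact h1

theorem wdist_upper (w : Wt) (g h : ZwrZ) : (wdist (XG w).1 g h : ℤ) ≤ D w.e g h + 1 := by
  have h1 := wlen_upper w (g⁻¹ * h)
  have h2 := D_left w g⁻¹ g h
  rw [inv_mul_cancel] at h2
  rw [h2] at h1
  exact h1

/-- tree Gromov product -/
noncomputable def gt (e : ℤ → ℕ) (x y z : ZwrZ) : ℤ := z.pos + M e x y - M e x z - M e y z

theorem gprod_lower (w : Wt) (x y z : ZwrZ) : (gt w.e x y z : ℝ) - 1 / 2 ≤ gprod (XG w).1 x y z := by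
  unfold gprod gt
  have h1 : ((D w.e x z : ℤ) : ℝ) ≤ wdist (XG w).1 x z := by exact_mod_cast wdist_lower w x z
  have h2 : ((D w.e y z : ℤ) : ℝ) ≤ wdist (XG w).1 y z := by exact_mod_cast wdist_lower w y z
  have h3 : (wdist (XG w).1 x y : ℝ) ≤ ((D w.e x y : ℤ) : ℝ) + 1 := by
    exact_mod_cast wdist_upper w x y
  unfold D at h1 h2 h3
  push_cast at h1 h2 h3 ⊢
  linarith

theorem gprod_upper (w : Wt) (x y z : ZwrZ) : gprod (XG w).1 x y z ≤ (gt w.e x y z : ℝ) + 1 := by
  unfold gprod gt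
  have h1 : (wdist (XG w).1 x z : ℝ) ≤ ((D w.e x z : ℤ) : ℝ) + 1 := by
    exact_mod_cast wdist_upper w x z
  have h2 : (wdist (XG w).1 y z : ℝ) ≤ ((D w.e y z : ℤ) : ℝ) + 1 := by
    exact_mod_cast wdist_upper w y z
  have h3 : ((D w.e x y : ℤ) : ℝ) ≤ wdist (XG w).1 x y := by exact_mod_cast wdist_lower w x y
  unfold D at h1 h2 h3
  push_cast at h1 h2 h3 ⊢
  linarith

theorem gt_ultra (w : Wt) (x y z v : ZwrZ) :
    min (gt w.e x y v) (gt w.e y z v) ≤ gt w.e x z v := by
  unfold gt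
  have h1 := M_ultra w x y z
  have h2 := M_ultra w x v z
  have h3 := M_ultra w x y v
  have h4 := M_ultra w x z v
  have h5 := M_ultra w y x v
  have h6 := M_ultra w y z v
  have h7 := M_ultra w z x v
  have h8 := M_ultra w z y v
  have h9 := M_ultra w x v y
  have h10 := M_ultra w y v z
  have h11 := M_ultra w x z y
  have h12 := M_ultra w y x z
  rw [M_comm w z x] at *
  rw [M_comm w z y] at *
  rw [M_comm w y x] at *
  rw [M_comm w v z] at *
  rw [M_comm w v y] at *
  omega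

theorem isHyp_XG (w : Wt) : IsHyp (XG w).1 := by
  refine ⟨2, fun x y z v => ?_⟩
  have h1 := gprod_upper w x y v
  have h2 := gprod_upper w y z v
  have h3 := gprod_lower w x z v
  have h4 := gt_ultra w x y z v
  have h4' : min (gt w.e x y v : ℝ) (gt w.e y z v : ℝ) ≤ (gt w.e x z v : ℝ) := by
    exact_mod_cast h4
  rcases min_le_iff.mp h4' with h5 | h5
  · have := min_le_left (gprod (XG w).1 x y v) (gprod (XG w).1 y z v)
    linarith
  · have := min_le_right (gprod (XG w).1 x y v) (gprod (XG w).1 y z v)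
    linarith

/-- Convenient lower bound. -/
theorem gprod_ge (w : Wt) {x y : ZwrZ} {m : ℤ} (H : E w.e m x y) :
    (m : ℝ) - (min x.pos 0 : ℤ) - (min y.pos 0 : ℤ) - 1 / 2 ≤ gprod (XG w).1 x y 1 := by
  have h1 := gprod_lower w x y 1
  have h2 : m - min x.pos 0 - min y.pos 0 ≤ gt w.e x y 1 := by
    unfold gt
    have h3 := le_M H
    have h4 := M_le_left w x 1
    have h5 := M_le_right w x 1
    have h6 := M_le_left w y 1
    have h7 := M_le_right w y 1
    rw [one_pos] at *
    omega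
  have h2' : (m : ℝ) - (min x.pos 0 : ℤ) - (min y.pos 0 : ℤ) ≤ (gt w.e x y 1 : ℝ) := by
    exact_mod_cast h2
  linarith

/-- the sequence `t ^ (-n)` -/
def seqD (n : ℕ) : ZwrZ := ⟨0, -(n : ℤ)⟩

theorem seqD_conv (w : Wt) : ConvInf (XG w).1 seqD := by
  intro R
  refine ⟨⌈R⌉₊ + 1, fun m n hm hn => ?_⟩
  have hE : E w.e (-(max m n : ℕ) : ℤ) (seqD m) (seqD n) := by
    refine ⟨?_, ?_, ?_⟩
    · simp only [seqD]; omega
    · simp only [seqD]; omega
    · simp only [seqD, sub_self]; exact P_zero _ _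
  have h1 := gprod_ge w hE
  have h2 : (min m n : ℤ) ≤ (-(max m n : ℕ) : ℤ) - min (seqD m).pos 0 - min (seqD n).pos 0 := by
    simp only [seqD]
    omega
  have h2' : ((min m n : ℕ) : ℝ) ≤ (((-(max m n : ℕ) : ℤ)) : ℝ) - (min (seqD m).pos 0 : ℤ)
      - (min (seqD n).pos 0 : ℤ) := by exact_mod_cast h2
  have h3 : (⌈R⌉₊ : ℝ) + 1 ≤ ((min m n : ℕ) : ℝ) := by
    exact_mod_cast le_min hm hn
  have h4 := Nat.le_ceil R
  linarith

theorem quasiParabolic_fix (w : Wt) : ∀ g : ZwrZ,
    bdryAct (XG w) g (Quot.mk _ ⟨seqD, seqD_conv w⟩) = Quot.mk _ ⟨seqD, seqD_conv w⟩ := by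
  intro g
  change Quot.mk _ (translate (XG w) g ⟨seqD, seqD_conv w⟩) = _
  apply Quot.sound
  intro R
  obtain ⟨k, hk, hP⟩ := P_exists w (-g.lamp)
  refine ⟨⌈R⌉₊ + k.toNat + 2 * g.pos.natAbs + 2, fun n hn => ?_⟩
  change R ≤ gprod (XG w).1 (g * seqD n) (seqD n) 1
  have hE : E w.e (-(n : ℤ) - g.pos.natAbs) (g * seqD n) (seqD n) := by
    refine ⟨?_, ?_, ?_⟩
    · simp only [seqD, mul_pos]; omega
    · simp only [seqD]; omega
    · have h1 : (seqD n).lamp - (g * seqD n).lamp = -g.lamp := by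
        ext i
        simp [seqD, shift_apply]
      rw [h1]
      exact P_mono w (by omega) hP
  have h1 := gprod_ge w hE
  have h2 : ((⌈R⌉₊ + 1 : ℕ) : ℤ) ≤ (-(n : ℤ) - g.pos.natAbs) - min (g * seqD n).pos 0
      - min (seqD n).pos 0 := by
    simp only [seqD, mul_pos]
    omega
  have h2' : ((⌈R⌉₊ + 1 : ℕ) : ℝ) ≤ ((-(n : ℤ) - g.pos.natAbs : ℤ) : ℝ)
      - (min (g * seqD n).pos 0 : ℤ) - (min (seqD n).pos 0 : ℤ) := by exact_mod_cast h2
  have h4 := Nat.le_ceil R
  push_cast at h2'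
  push_cast at h1
  linarith

/-- the sequence `(a δ_0, n)` -/
noncomputable def seqU (a : ℕ) (n : ℕ) : ZwrZ := ⟨Finsupp.single 0 (a : ℤ), n⟩

theorem seqU_conv (w : Wt) (a : ℕ) : ConvInf (XG w).1 (fun n => seqU a n * 1) := by
  intro R
  refine ⟨⌈R⌉₊ + 1, fun m n hm hn => ?_⟩
  simp only [mul_one]
  have hE : E w.e ((min m n : ℕ) : ℤ) (seqU a m) (seqU a n) := by
    refine ⟨?_, ?_, ?_⟩
    · simp only [seqU]; omega
    · simp only [seqU]; omega
    · simp only [seqU, sub_self]; exact P_zero _ _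
  have h1 := gprod_ge w hE
  have h2 : (min m n : ℤ) ≤ ((min m n : ℕ) : ℤ) - min (seqU a m).pos 0 - min (seqU a n).pos 0 := by
    simp only [seqU]
    omega
  have h2' : ((min m n : ℕ) : ℝ) ≤ ((((min m n : ℕ) : ℤ)) : ℝ) - (min (seqU a m).pos 0 : ℤ)
      - (min (seqU a n).pos 0 : ℤ) := by exact_mod_cast h2
  have h3 : (⌈R⌉₊ : ℝ) + 1 ≤ ((min m n : ℕ) : ℝ) := by
    exact_mod_cast le_min hm hn
  have h4 := Nat.le_ceil R
  linarith

/-- the boundary point of the sequence `(a δ_0, n)` -/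
noncomputable def bd (w : Wt) (a : ℕ) : Bdry (XG w).1 :=
  Quot.mk _ ⟨fun n => seqU a n * 1, seqU_conv w a⟩

theorem bd_mem (w : Wt) (a : ℕ) : bd w a ∈ limitSet (XG w) := ⟨seqU a, seqU_conv w a, rfl⟩

theorem seqEquiv_equivalence (w : Wt) : Equivalence (SeqEquiv (XG w).1) := by
  constructor
  · intro s R
    obtain ⟨N, hN⟩ := s.2 R
    exact ⟨N, fun n hn => hN n n hn hn⟩
  · intro s t h R
    obtain ⟨N, hN⟩ := h R
    refine ⟨N, fun n hn => ?_⟩
    have h1 := hN n hn
    have h2 : gprod (XG w).1 (t.1 n) (s.1 n) 1 = gprod (XG w).1 (s.1 n) (t.1 n) 1 := by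
      unfold gprod
      rw [wdist_comm (XG w) (t.1 n) (s.1 n)]
      ring
    rw [h2]
    exact h1
  · intro s t u h h' R
    obtain ⟨δ, hδ⟩ := isHyp_XG w
    obtain ⟨N, hN⟩ := h (R + δ)
    obtain ⟨N', hN'⟩ := h' (R + δ)
    refine ⟨max N N', fun n hn => ?_⟩
    have h1 := hN n ((le_max_left _ _).trans hn)
    have h2 := hN' n ((le_max_right _ _).trans hn)
    have h3 := hδ (s.1 n) (t.1 n) (u.1 n) 1
    have h4 := le_min h1 h2
    linarith

theorem bd_injective (w : Wt) : Function.Injective (bd w) := by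
  intro a b hab
  by_contra hne
  have h1 : SeqEquiv (XG w).1 ⟨fun n => seqU a n * 1, seqU_conv w a⟩
      ⟨fun n => seqU b n * 1, seqU_conv w b⟩ := by
    have h2 := Quot.eqvGen_exact hab
    rw [(seqEquiv_equivalence w).eqvGen_iff] at h2
    exact h2
  -- upper bound for heights
  obtain ⟨i, hi⟩ := w.unbdd (a + b + 1)
  obtain ⟨N, hN⟩ := h1 (-i + 2)
  have h3 := hN N le_rfl
  simp only [mul_one] at h3
  have h4 := gprod_upper w (seqU a N) (seqU b N) 1
  have h5 : gt w.e (seqU a N) (seqU b N) 1 ≤ -i := by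
    unfold gt
    have h6 : (0 : ℤ) ≤ M w.e (seqU a N) 1 := by
      apply le_M
      refine ⟨by simp [seqU], by simp, ?_⟩
      intro j
      simp only [seqU, one_lamp, zero_sub, Finsupp.neg_apply, neg_zero, add_zero]
      by_cases hj : j = 0
      · subst hj
        rw [w.zero 0 le_rfl]
        simp
      · rw [Finsupp.single_eq_of_ne hj]
        simp
    have h7 : (0 : ℤ) ≤ M w.e (seqU b N) 1 := by
      apply le_M
      refine ⟨by simp [seqU], by simp, ?_⟩
      intro j
      simp only [seqU, one_lamp, zero_sub, Finsupp.neg_apply, neg_zero, add_zero]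
      by_cases hj : j = 0
      · subst hj
        rw [w.zero 0 le_rfl]
        simp
      · rw [Finsupp.single_eq_of_ne hj]
        simp
    have h8 : M w.e (seqU a N) (seqU b N) ≤ -i := by
      by_contra hcon
      push Not at hcon
      have h9 := (M_spec w (seqU a N) (seqU b N)).2.2 0
      have h10 : ((seqU b N).lamp - (seqU a N).lamp) 0 = (b : ℤ) - a := by
        simp [seqU]
      rw [h10, zero_add] at h9
      have h11 : a + b + 1 ≤ w.e (-M w.e (seqU a N) (seqU b N)) :=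
        hi.trans (w.anti _ _ (by omega))
      have h12 : (2 : ℤ) ^ (a + b + 1) ∣ (b : ℤ) - a := (pow_dvd_pow 2 h11).trans h9
      have h13 : (b : ℤ) - a ≠ 0 := by omega
      have h14 := Int.le_of_dvd (abs_pos.mpr h13) ((dvd_abs _ _).mpr h12)
      have h15 : (a + b + 1 : ℕ) < 2 ^ (a + b + 1) := Nat.lt_two_pow_self
      have h16 : ((a + b + 1 : ℕ) : ℤ) < (2 : ℤ) ^ (a + b + 1) := by exact_mod_cast h15
      have h17 : |(b : ℤ) - a| ≤ a + b := by
        rw [abs_le]
        constructor <;> omega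
      push_cast at h16
      omega
    rw [one_pos]
    omega
  have h5' : (gt w.e (seqU a N) (seqU b N) 1 : ℝ) ≤ -i := by exact_mod_cast h5
  linarith

theorem quasiParabolic_XG (w : Wt) : IsQuasiParabolic (XG w) := by
  refine ⟨⟨_, quasiParabolic_fix w⟩, ?_⟩
  exact Set.infinite_of_injective_forall_mem (bd_injective w) (bd_mem w)

/-- The generating set, with hyperbolicity. -/
def XH (w : Wt) : HypGenSet ZwrZ := ⟨XG w, isHyp_XG w⟩

theorem cls_XH_mem (w : Wt) : cls (XH w) ∈ QPStr ZwrZ := ⟨XH w, rfl, quasiParabolic_XG w⟩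

/-- The weights of slope `r`. -/
noncomputable def slope (r : ℝ) (hr : 0 < r) : Wt where
  e i := ⌊r * (-(i : ℝ))⌋₊
  anti i j hij := by
    apply Nat.floor_mono
    have : (i : ℝ) ≤ j := by exact_mod_cast hij
    nlinarith
  zero i hi := by
    apply Nat.floor_of_nonpos
    have : (0 : ℝ) ≤ i := by exact_mod_cast hi
    nlinarith
  unbdd C := by
    refine ⟨-⌈C / r⌉, ?_⟩
    apply Nat.le_floor
    push_cast
    rw [neg_neg]
    have h1 := Int.le_ceil ((C : ℝ) / r)
    rw [div_le_iff₀ hr] at h1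
    linarith

theorem XH_mono {r r' : ℝ} (hr : 0 < r) (hr' : 0 < r') (h : r ≤ r') :
    XH (slope r hr) ≤ XH (slope r' hr') := by
  refine ⟨1, fun x hx => ?_⟩
  have hx' : x ∈ Xset (slope r hr).e := by
    rcases hx with hx | hx
    · left
      refine ⟨hx.1, fun i => (pow_dvd_pow 2 ?_).trans (hx.2 i)⟩
      rcases le_total 0 i with hi | hi
      · rw [(slope r hr).zero i hi]
        exact Nat.zero_le _
      · apply Nat.floor_mono
        have : (i : ℝ) ≤ 0 := by exact_mod_cast hi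
        nlinarith
    · exact Or.inr hx
  have h1 := wlen_le (Xset (slope r hr).e) [x] (by simpa using Or.inl hx')
  rw [List.prod_singleton] at h1
  exact h1

theorem XH_not_le {r r' : ℝ} (hr : 0 < r) (hr' : 0 < r') (h : r < r') :
    ¬ XH (slope r' hr') ≤ XH (slope r hr) := by
  rintro ⟨C, hC⟩
  -- choose j large
  obtain ⟨j, hj⟩ := exists_nat_gt ((C + 2) * r' / (r' - r) + 1 / (r' - r))
  set x : ZwrZ := ⟨Finsupp.single (-(j : ℤ)) (2 ^ (slope r hr).e (-(j : ℤ))), 0⟩ with hx
  have hxmem : x ∈ (XH (slope r hr)).1.1 := by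
    left
    refine ⟨rfl, fun i => ?_⟩
    simp only [hx]
    by_cases hi : i = -(j : ℤ)
    · subst hi
      rw [Finsupp.single_eq_same]
    · rw [Finsupp.single_eq_of_ne hi]
      exact dvd_zero _
  have h1 := hC x hxmem
  have h2 := wlen_lower (slope r' hr') x
  have h3 := (M_spec (slope r' hr') 1 x).2.2 (-(j : ℤ))
  set m := M (slope r' hr').e 1 x with hm
  have h4 : (x.lamp - (1 : ZwrZ).lamp) (-(j : ℤ)) = 2 ^ (slope r hr).e (-(j : ℤ)) := by
    simp [hx]
  rw [h4] at h3
  have h5 : (slope r' hr').e (-(j : ℤ) + -m) ≤ (slope r hr).e (-(j : ℤ)) := by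
    have h3' : (2 : ℕ) ^ (slope r' hr').e (-(j : ℤ) + -m) ∣ 2 ^ (slope r hr).e (-(j : ℤ)) := by
      exact_mod_cast h3
    exact (Nat.pow_dvd_pow_iff_le_right (by norm_num)).mp h3'
  have h6 : D (slope r' hr').e 1 x = - 2 * m := by
    unfold D
    rw [one_pos, ← hm]
    simp only [hx]
    ring
  have h7 : -m ≤ C := by
    have h8 : ((wlen (XG (slope r' hr')).1 x : ℕ) : ℤ) ≤ C := by exact_mod_cast h1
    have h9 : m ≤ 0 := M_le_left (slope r' hr') 1 x
    omega
  have h10 : r' * (j + m) < r * j + 1 := by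
    have h11 : ((slope r' hr').e (-(j : ℤ) + -m) : ℝ) ≤ ((slope r hr).e (-(j : ℤ)) : ℝ) := by
      exact_mod_cast h5
    have h12 : r' * (j + m) < ((slope r' hr').e (-(j : ℤ) + -m) : ℝ) + 1 := by
      have := Nat.lt_floor_add_one (r' * (-((-(j : ℤ) + -m : ℤ) : ℝ)))
      push_cast at this
      have h13 : r' * -(-(j : ℝ) + -m) = r' * (j + m) := by ring
      rw [h13] at this
      simp only [slope]
      push_cast
      rw [h13]
      exact this
    have h14 : ((slope r hr).e (-(j : ℤ)) : ℝ) ≤ r * j := by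
      simp only [slope]
      push_cast
      rw [neg_neg]
      exact Nat.floor_le (by positivity)
    linarith
  have h15 : (-(C : ℝ)) ≤ m := by
    have : -(C : ℤ) ≤ m := by omega
    exact_mod_cast this
  have h16 : (r' - r) * j < C * r' + 1 := by nlinarith
  have h17 : 0 < r' - r := by linarith
  rw [← add_div, div_lt_iff₀ h17] at hj
  nlinarith

/-- `ℤ wr ℤ` is generated by two elements. -/
theorem fg_ZwrZ : Group.FG ZwrZ := by
  rw [Group.fg_iff]
  refine ⟨{t, ⟨Finsupp.single 0 1, 0⟩}, ?_, by simp⟩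
  set S : Set ZwrZ := {t, ⟨Finsupp.single 0 1, 0⟩} with hS
  have ht : t ∈ Subgroup.closure S := Subgroup.subset_closure (by simp [hS])
  have ha : (⟨Finsupp.single 0 1, 0⟩ : ZwrZ) ∈ Subgroup.closure S :=
    Subgroup.subset_closure (by simp [hS])
  have hadd : ∀ F F' : ℤ →₀ ℤ, (⟨F + F', 0⟩ : ZwrZ) = ⟨F, 0⟩ * ⟨F', 0⟩ := by
    intro F F'
    apply ZwrZ.ext
    · ext i
      simp [shift_apply]
    · simp
  have hpow : ∀ n : ℕ, (⟨Finsupp.single 0 (n : ℤ), 0⟩ : ZwrZ) ∈ Subgroup.closure S := by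
    intro n
    induction n with
    | zero =>
      have : (⟨Finsupp.single 0 ((0 : ℕ) : ℤ), 0⟩ : ZwrZ) = 1 := by
        apply ZwrZ.ext
        · simp
        · rfl
      rw [this]
      exact Subgroup.one_mem _
    | succ n ih =>
      have : (⟨Finsupp.single 0 ((n + 1 : ℕ) : ℤ), 0⟩ : ZwrZ)
          = ⟨Finsupp.single 0 (n : ℤ), 0⟩ * ⟨Finsupp.single 0 1, 0⟩ := by
        rw [← hadd, ← Finsupp.single_add]
        push_cast
        rfl
      rw [this]
      exact Subgroup.mul_mem _ ih ha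
  have hint : ∀ n : ℤ, (⟨Finsupp.single 0 n, 0⟩ : ZwrZ) ∈ Subgroup.closure S := by
    intro n
    rcases Int.eq_nat_or_neg n with ⟨k, rfl | rfl⟩
    · exact hpow k
    · have : (⟨Finsupp.single 0 (-(k : ℤ)), 0⟩ : ZwrZ) = (⟨Finsupp.single 0 (k : ℤ), 0⟩)⁻¹ := by
        apply ZwrZ.ext
        · ext i
          simp [shift_apply]
        · simp
      rw [this]
      exact Subgroup.inv_mem _ (hpow k)
  have hsingle : ∀ i n : ℤ, (⟨Finsupp.single i n, 0⟩ : ZwrZ) ∈ Subgroup.closure S := by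
    intro i n
    have : (⟨Finsupp.single i n, 0⟩ : ZwrZ) = t ^ i * ⟨Finsupp.single 0 n, 0⟩ * t ^ (-i) := by
      rw [t_zpow, t_zpow]
      apply ZwrZ.ext
      · ext j
        simp only [mul_lamp, Finsupp.add_apply, shift_apply, Finsupp.coe_zero, Pi.zero_apply,
          add_zero, zero_add]
        by_cases hj : j = i
        · subst hj
          simp
        · rw [Finsupp.single_eq_of_ne hj, Finsupp.single_eq_of_ne (by omega)]
      · simp
    rw [this]
    exact Subgroup.mul_mem _ (Subgroup.mul_mem _ (Subgroup.zpow_mem _ ht _) (hint n))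
      (Subgroup.zpow_mem _ ht _)
  have hlamp : ∀ F : ℤ →₀ ℤ, (⟨F, 0⟩ : ZwrZ) ∈ Subgroup.closure S := by
    intro F
    induction F using Finsupp.induction_linear with
    | zero => exact Subgroup.one_mem _
    | add F F' h h' =>
      rw [hadd]
      exact Subgroup.mul_mem _ h h'
    | single i n => exact hsingle i n
  rw [eq_top_iff]
  intro g _
  have : g = ⟨g.lamp, 0⟩ * t ^ g.pos := by
    rw [t_zpow]
    apply ZwrZ.ext
    · ext i
      simp [shift_apply]
    · simp
  rw [this]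
  exact Subgroup.mul_mem _ (hlamp _) (Subgroup.zpow_mem _ ht _)

end ZwrZ

open ZwrZ

/-- The finitely generated group `ℤ wr ℤ` has an uncountable chain of quasi-parabolic hyperbolic
structures. -/
theorem result : Group.FG ZwrZ ∧
    ∃ C : Set (HypStr ZwrZ), C ⊆ QPStr ZwrZ ∧ IsChain (· ≤ ·) C ∧ ¬ C.Countable := by
  refine ⟨fg_ZwrZ, Set.range (fun r : Set.Ioi (0 : ℝ) => cls (XH (slope r.1 r.2))), ?_, ?_, ?_⟩
  · rintro c ⟨r, rfl⟩
    exact cls_XH_mem _
  · rintro _ ⟨r, rfl⟩ _ ⟨r', rfl⟩ _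
    rcases le_total r.1 r'.1 with h | h
    · left
      exact toAntisymmetrization_le_toAntisymmetrization_iff.mpr (XH_mono r.2 r'.2 h)
    · right
      exact toAntisymmetrization_le_toAntisymmetrization_iff.mpr (XH_mono r'.2 r.2 h)
  · intro hc
    have hinj : Function.Injective
        (fun r : Set.Ioi (0 : ℝ) => cls (XH (slope r.1 r.2))) := by
      intro r r' hrr
      by_contra hne
      have h1 : XH (slope r.1 r.2) ≤ XH (slope r'.1 r'.2) :=
        toAntisymmetrization_le_toAntisymmetrization_iff.mp (le_of_eq hrr)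
      have h2 : XH (slope r'.1 r'.2) ≤ XH (slope r.1 r.2) :=
        toAntisymmetrization_le_toAntisymmetrization_iff.mp (le_of_eq hrr.symm)
      rcases lt_or_gt_of_ne (fun h => hne (Subtype.ext h) : r.1 ≠ r'.1) with h | h
      · exact XH_not_le r.2 r'.2 h h2
      · exact XH_not_le r'.2 r.2 h h1
    have h3 : Countable (Set.range (fun r : Set.Ioi (0 : ℝ) => cls (XH (slope r.1 r.2)))) := hc
    have h4 : Countable (Set.Ioi (0 : ℝ)) :=
      ((Equiv.ofInjective _ hinj).countable_iff).mpr h3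
    have h5 : (Set.Ioi (0 : ℝ)).Countable := h4
    rw [← Cardinal.le_aleph0_iff_set_countable, Cardinal.mk_Ioi_real] at h5
    exact absurd h5 (not_le.mpr Cardinal.aleph0_lt_continuum)

end Pool.Agent.Results.MP_484ff1_al.UncountableChain
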